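import Pool.Agent.Helper34.HG.MATB
import Pool.Agent.Helper91.HG.DEG

/-!
# Project HG, part 4: packet HG-DEGB (bounded degree, bipartite hypergraphs)
-/

set_option autoImplicit false

namespace Pool.Agent.Helper3.HG.DEGB

open MvPolynomial Pool.Agent.Helper74.HG Pool.Agent.Helper84.HG.WD Pool.Agent.Helper91.HG.DEG
open Pool.Agent.Helper34.HG.MATB (gv gs gr2 gs_card gr_iff gr_H1)

noncomputable section

theorem gs_ph {σ : Type} (c : σ → Bool) {x : σ} {e : Finset σ} (h : x ∈ e) :
    gs (gr2 (gr2 c x) none) (ph x e) = gs c e := by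
  let _ := Classical.decEq σ
  unfold gs ph
  rw [Finset.sum_cons, Finset.sum_map]
  exact Finset.add_sum_erase e (gv c) h

theorem gr_NH {σ : Type} {c : σ → Bool} {x : σ} {R B : Finset (Finset σ)} (hR : Gr c R)
    (hB : Gr c B) (hx : ∀ e ∈ B, x ∈ e) : Gr (gr2 (gr2 c x) none) (NH x R B) := by
  rw [gr_iff] at hR hB ⊢
  intro e he
  rcases mem_NH.1 he with h | h
  · exact gr_H1 (gr_H1 hR x) none e h
  · obtain ⟨e', he', rfl⟩ := mem_NB.1 h
    rw [gs_ph c (hx e' he')]
    exact hB e' he'

theorem main (htr : TRA) (hst : STE) (his : ISO) : ∀ (n : ℕ) (σ : Type) [Fintype σ]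
    (c : σ → Bool) (H : Finset (Finset σ)), Cub H → Gr c H → exc H ≤ n →
    ∃ (τ : Type) (_ : Fintype τ) (c' : τ → Bool) (H' : Finset (Finset τ)), Cub H' ∧ Gr c' H' ∧
      Sub3 H' ∧ Red (hyp H) (hyp H') := by
  classical
  intro n
  induction n using Nat.strong_induction_on with
  | _ n ih =>
    intro σ _ c H hH hgr hn
    by_cases h3 : Sub3 H
    · exact ⟨σ, inferInstance, c, H, hH, hgr, h3,
        his AlgEquiv.refl (fun i => constantCoeff_X _ i) (hyp H)⟩
    · rw [sub3_iff] at h3
      push Not at h3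
      obtain ⟨x, hx⟩ := h3
      obtain ⟨B, hB1, hB2⟩ : ∃ B ⊆ H.filter (fun e => x ∈ e), B.card = dg H x - 2 := by
        refine Finset.exists_subset_card_eq ?_
        unfold dg
        omega
      have hBH : B ⊆ H := hB1.trans (Finset.filter_subset _ _)
      have hB : ∀ e ∈ B, x ∈ e := fun e he => (Finset.mem_filter.1 (hB1 he)).2
      have hlt := exc_lt x H B hBH hB (by omega) (by omega)
      have hcub : Cub (NH x (df H B) B) := by
        refine cub_NH x _ B ?_ (fun e he => hH e (hBH he)) hB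
        intro e he
        exact hH e (mem_df.1 he).1
      have hgrN : Gr (gr2 (gr2 c x) none) (NH x (df H B) B) :=
        gr_NH (fun e he => hgr e (mem_df.1 he).1) (fun e he => hgr e (hBH he)) hB
      have hred := red_NH htr hst x H B hBH hB (fun e he => by
        rcases hH e (hBH he) with h | h <;> omega)
      obtain ⟨τ, i, c', H', g1, g2, g3, g4⟩ :=
        ih _ (lt_of_lt_of_le hlt hn) _ _ _ hcub hgrN le_rfl
      exact ⟨τ, i, c', H', g1, g2, g3, htr _ _ _ hred g4⟩

end

theorem t (htr : TRA) (hst : STE) (his : ISO) : Pool.Agent.Helper74.HG.DEGB := by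
  intro σ _ c H hH hgr
  exact main htr hst his (exc H) σ c H hH hgr le_rfl

end Pool.Agent.Helper3.HG.DEGB
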