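import Pool.Agent.Helper74.HG.GoalsG
import Pool.Agent.Helper91.HG.DEG

/-!
# Project HG, part 3: packet HG-DEGG (bounded degree, edges with one, two or three vertices)
-/

set_option autoImplicit false

namespace Pool.Agent.Helper3.HG.DEGG

open MvPolynomial Pool.Agent.Helper74.HG Pool.Agent.Helper84.HG.WD Pool.Agent.Helper91.HG.DEG

noncomputable section

theorem rk_up {σ : Type} {H : Finset (Finset σ)} (hH : Rk3 H) : Rk3 (upH H) := by
  intro e he
  unfold upH at he
  rw [Finset.mem_map] at he
  obtain ⟨e', he', rfl⟩ := he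
  show 1 ≤ (e'.map (em σ)).card ∧ (e'.map (em σ)).card ≤ 3
  rw [Finset.card_map]
  exact hH e' he'

theorem rk_ins {σ : Type} {H : Finset (Finset σ)} (hH : Rk3 H) {e : Finset σ}
    (he : 1 ≤ e.card ∧ e.card ≤ 3) : Rk3 (ins e H) := by
  intro e' he'
  rcases mem_ins.1 he' with rfl | h
  · exact he
  · exact hH e' h

theorem rk_H1 {σ : Type} {H : Finset (Finset σ)} (hH : Rk3 H) (i : σ) : Rk3 (H1 H i) := by
  unfold H1 H0
  refine rk_ins (rk_ins (rk_up hH) ?_) ?_
  · rw [card_pr none_ne]
    omega
  · rw [card_pr (em_ne i)]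
    omega

theorem rk_NH {σ : Type} (x : σ) (R B : Finset (Finset σ)) (hR : Rk3 R) (hB : Rk3 B)
    (hx : ∀ e ∈ B, x ∈ e) : Rk3 (NH x R B) := by
  intro e' he'
  rcases mem_NH.1 he' with h | h
  · exact rk_H1 (rk_H1 hR x) none e' h
  · obtain ⟨e, he, rfl⟩ := mem_NB.1 h
    rw [card_ph (hx e he)]
    exact hB e he

theorem redG_NH (htr : TRAG) (hst : STEG) {σ : Type} (x : σ) (H B : Finset (Finset σ))
    (hBH : B ⊆ H) (hB : ∀ e ∈ B, x ∈ e) : RedG (hyp H) (hyp (NH x (df H B) B)) := by
  set R := (df H B) with hR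
  have e0 : hyp H = hyp R + C 1 * X x * bb x B := hyp_split x H B hBH hB
  have s1 := hst (hyp R) (X x) (bb x B) 1
  have s2 := hst (hyp (H1 R x)) (X none)
    (rename (fun i : σ => (some (some i) : Option (Option σ))) (bb x B)) (-1)
  rw [e0]
  refine htr _ _ _ s1 ?_
  have e1 : (rename (fun i => some (some i)) (hyp R) + rename (fun i => some (some i)) (X x) *
      X (some none) - C 1 * X none * rename (fun i => some (some i)) (bb x B) +
      X none * X (some none) : MvPolynomial (Option (Option σ)) ℤ) =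
      hyp (H1 R x) + C (-1) * X none * rename (fun i => some (some i)) (bb x B) := by
    rw [rename_hyp, rename_X, hyp_H1, em_apply, C_neg, C_1]
    ring
  rw [e1]
  have e2 : hyp (NH x R B) = rename (fun i => some (some i)) (hyp (H1 R x)) +
      rename (fun i => some (some i)) (X none) * X (some none) -
      C (-1) * X none * rename (fun i => some (some i))
        (rename (fun i : σ => (some (some i) : Option (Option σ))) (bb x B)) +
      X none * X (some none) := by
    rw [hyp_NH, hyp_NB x B hB, rename_hyp, rename_X, hyp_H1 (H1 R x) none, em_apply, C_neg, C_1]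
    ring
  rw [e2]
  exact s2

theorem main (htr : TRAG) (hst : STEG) (his : ISOG) : ∀ (n : ℕ) (σ : Type) [Fintype σ]
    (H : Finset (Finset σ)), Rk3 H → exc H ≤ n →
    ∃ (τ : Type) (_ : Fintype τ) (H' : Finset (Finset τ)), Rk3 H' ∧ Sub3 H' ∧
      RedG (hyp H) (hyp H') := by
  classical
  intro n
  induction n using Nat.strong_induction_on with
  | _ n ih =>
    intro σ _ H hH hn
    by_cases h3 : Sub3 H
    · exact ⟨σ, inferInstance, H, hH, h3, his AlgEquiv.refl (hyp H)⟩
    · rw [sub3_iff] at h3
      push Not at h3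
      obtain ⟨x, hx⟩ := h3
      obtain ⟨B, hB1, hB2⟩ : ∃ B ⊆ H.filter (fun e => x ∈ e), B.card = dg H x - 2 := by
        refine Finset.exists_subset_card_eq ?_
        unfold dg
        omega
      have hBH : B ⊆ H := hB1.trans (Finset.filter_subset _ _)
      have hB : ∀ e ∈ B, x ∈ e := fun e he => (Finset.mem_filter.1 (hB1 he)).2
      have hlt := exc_lt x H B hBH hB (by omega) (by omega)
      have hrk : Rk3 (NH x (df H B) B) := by
        refine rk_NH x _ B ?_ (fun e he => hH e (hBH he)) hB
        intro e he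
        exact hH e (mem_df.1 he).1
      have hred := redG_NH htr hst x H B hBH hB
      obtain ⟨τ, i, H', g1, g2, g3⟩ := ih _ (lt_of_lt_of_le hlt hn) _ _ hrk le_rfl
      exact ⟨τ, i, H', g1, g2, htr _ _ _ hred g3⟩

end

theorem t (htr : TRAG) (hst : STEG) (his : ISOG) : Pool.Agent.Helper74.HG.DEGG := by
  intro σ _ H hH
  exact main htr hst his (exc H) σ H hH le_rfl

end Pool.Agent.Helper3.HG.DEGG
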